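import Pool.Agent.J4H20.TR.Stm

/-!
# Project TR2 of helper20, job R3
-/

set_option autoImplicit false

namespace Pool.Agent.J4H72.TR

open Polynomial Filter Topology
open Pool.Agent.J4H20.TR

lemma em_tendsto : Tendsto (fun m : ℕ => (((1 / ((m : ℚ) + 2) : ℚ)) : ℝ)) atTop (𝓝 0) := by
  have h1 : Tendsto (fun m : ℕ => ((m : ℝ) + 2)) atTop atTop :=
    tendsto_atTop_add_const_right _ _ tendsto_natCast_atTop_atTop
  refine h1.inv_tendsto_atTop.congr fun m => ?_
  push_cast
  simp

lemma pol_tendsto (p : ℚ[X]) :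
    Tendsto (fun m : ℕ => ((p.eval (1 / ((m : ℚ) + 2)) : ℚ) : ℝ)) atTop (𝓝 ((p.eval 0 : ℚ) : ℝ)) := by
  have hc : Continuous fun x : ℝ => (p.map (algebraMap ℚ ℝ)).eval x := Polynomial.continuous _
  have h1 := (hc.tendsto 0).comp em_tendsto
  have h2 : (p.map (algebraMap ℚ ℝ)).eval 0 = ((p.eval 0 : ℚ) : ℝ) := by
    have := Polynomial.eval_map_algebraMap p (0 : ℝ)
    rw [eval_map, eval₂_at_zero, ← coeff_zero_eq_eval_zero]
    rfl
  rw [h2] at h1
  refine h1.congr fun m => ?_
  simp only [Function.comp_apply]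
  rw [eval_map]
  have h3 := Polynomial.hom_eval₂ p (RingHom.id ℚ) (algebraMap ℚ ℝ) (1 / ((m : ℚ) + 2))
  rw [RingHom.comp_id] at h3
  exact h3.symm

theorem t_R3 : S_R1 → S_R2 → S_R3 := by
  intro hR1 hR2 n r₁ a v₁ v₂ hn ha hv₁ hv₁₂ hv
  classical
  set A : ℝ[X] := ∏ i, (X - C (a i : ℝ)) with hA
  have hAm : A.Monic := monic_prod_of_monic _ _ fun i _ => monic_X_sub_C _
  have hAn : A.natDegree = n := by
    rw [hA, natDegree_prod_of_monic _ _ fun i _ => monic_X_sub_C _]
    simp only [natDegree_X_sub_C]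
    simp
  have hAe : ∀ x : ℝ, A.eval x = ∏ i, (x - (a i : ℝ)) := by
    intro x
    rw [hA, eval_prod]
    simp
  -- a value which is not critical
  have hA' : derivative A ≠ 0 := by
    intro h
    have h1 := natDegree_eq_zero_of_derivative_eq_zero h
    omega
  have hfin : ((fun x => -A.eval x) '' {x : ℝ | (derivative A).IsRoot x}).Finite :=
    (Polynomial.finite_setOfPred_isRoot hA').image _
  obtain ⟨v₀, hv₀, hv₀'⟩ := ((Set.Ioo_infinite hv₁₂).diff hfin).nonempty
  have hv₀pos : 0 < v₀ := hv₁.trans hv₀.1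
  set P : ℝ[X] := A + C v₀ with hP
  have hAdeg : A.degree = n := by
    rw [degree_eq_natDegree hAm.ne_zero, hAn]
  have hCdeg : ∀ c : ℝ, (C c : ℝ[X]).degree < n := fun c =>
    lt_of_le_of_lt degree_C_le (by exact_mod_cast hn)
  have hPm : P.Monic := hAm.add_of_left (by rw [hAdeg]; exact hCdeg v₀)
  have hPn : P.natDegree = n := by
    rw [hP, natDegree_add_eq_left_of_degree_lt (by rw [hAdeg]; exact hCdeg v₀), hAn]
  have hPs : ∀ x : ℝ, P.eval x = 0 → (derivative P).eval x ≠ 0 := by
    intro x hx h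
    apply hv₀'
    refine ⟨x, ?_, ?_⟩
    · have : derivative P = derivative A := by
        rw [hP, derivative_add, derivative_C, add_zero]
      rw [this] at h
      exact h
    · rw [hP, eval_add, eval_C] at hx
      simp only
      linarith
  obtain ⟨δ, hδ, hQ⟩ := hR2 P hPm hPs
  have hPr : {x : ℝ | P.eval x = 0}.ncard = r₁ := by
    rw [← hv v₀ hv₀.1 hv₀.2]
    congr 1
    ext x
    simp only [Set.mem_ofPred_eq]
    rw [hP, eval_add, eval_C, hAe]
    constructor
    · intro h; linarith
    · intro h; linarith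
  -- the parameter
  obtain ⟨gf, rf, hfe, hg0, hr0⟩ := hR1 n a
  set AQ : ℚ[X] := ∏ i, (X - C (a i : ℚ)) with hAQ
  have hAmap : AQ.map (algebraMap ℚ ℝ) = A := by
    rw [hAQ, hA, Polynomial.map_prod]
    simp
  have hev : ∀ᶠ m : ℕ in atTop, ∀ j : Fin n,
      |((((gf j).eval (1 / ((m : ℚ) + 2)) : ℚ)) : ℝ) - A.coeff j| < δ / 4 ∧
      |((((rf j).eval (1 / ((m : ℚ) + 2)) : ℚ)) : ℝ)| < δ * v₀ / 2 := by
    rw [eventually_all]
    intro j
    have h1 := pol_tendsto (gf j)
    have h2 := pol_tendsto (rf j)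
    rw [hr0 j] at h2
    have h3 : (((gf j).eval 0 : ℚ) : ℝ) = A.coeff j := by
      rw [hg0 j, ← hAmap, coeff_map]
      rfl
    rw [h3] at h1
    have e1 := (Metric.tendsto_nhds.1 h1) (δ / 4) (by positivity)
    have e2 := (Metric.tendsto_nhds.1 h2) (δ * v₀ / 2) (by positivity)
    filter_upwards [e1, e2] with m k1 k2
    rw [Real.dist_eq] at k1 k2
    refine ⟨k1, ?_⟩
    simpa using k2
  obtain ⟨m, hm⟩ := hev.exists
  set ε : ℚ := 1 / ((m : ℚ) + 2) with hε
  have hε0 : 0 < ε := by positivity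
  have hε1 : ε < 1 := by
    rw [hε, div_lt_one (by positivity)]
    have : (0 : ℚ) ≤ m := Nat.cast_nonneg m
    linarith
  set g : ℚ[X] := X ^ n + ∑ j : Fin n, C ((gf j).eval ε) * X ^ (j : ℕ) with hg
  set r : ℚ[X] := ∑ j : Fin n, C ((rf j).eval ε) * X ^ (j : ℕ) with hr
  have hgs : (∑ j : Fin n, C ((gf j).eval ε) * X ^ (j : ℕ) : ℚ[X]).degree < n :=
    degree_sum_fin_lt _
  have hrd : r.degree < n := degree_sum_fin_lt _
  have hgm : g.Monic := monic_X_pow_add hgs
  have hgn : g.natDegree = n := by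
    rw [hg, natDegree_add_eq_left_of_degree_lt (by rw [degree_X_pow]; exact hgs), natDegree_X_pow]
  have hcg : ∀ j : Fin n, g.coeff j = (gf j).eval ε := by
    intro j
    rw [hg, coeff_add, coeff_X_pow, if_neg (ne_of_lt j.2), zero_add, finsetSum_coeff]
    simp only [coeff_C_mul, coeff_X_pow]
    rw [Finset.sum_eq_single j]
    · simp
    · intro i _ hi
      rw [if_neg, mul_zero]
      intro h
      exact hi (Fin.ext h.symm)
    · intro h; exact absurd (Finset.mem_univ j) h
  have hcr : ∀ j : Fin n, r.coeff j = (rf j).eval ε := by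
    intro j
    rw [hr, finsetSum_coeff]
    simp only [coeff_C_mul, coeff_X_pow]
    rw [Finset.sum_eq_single j]
    · simp
    · intro i _ hi
      rw [if_neg, mul_zero]
      intro h
      exact hi (Fin.ext h.symm)
    · intro h; exact absurd (Finset.mem_univ j) h
  set η : ℝ := min v₀ (δ / 2) with hη
  have hη0 : 0 < η := lt_min hv₀pos (by positivity)
  refine ⟨fun i => (a i : ℚ) + ε, g, r, 2 * v₀ - η, 2 * v₀ + η, ?_, hgm, hgn, hrd, hfe ε, ?_, ?_, ?_⟩
  · have hne : ∀ i j : Fin n, (a i : ℚ) ≠ (a j : ℚ) + ε := by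
      intro i j h
      have h1 : ε = (((a i - a j : ℤ)) : ℚ) := by push_cast; linarith
      rw [h1] at hε0 hε1
      have h2 : (0 : ℤ) < a i - a j := by exact_mod_cast hε0
      have h3 : a i - a j < (1 : ℤ) := by exact_mod_cast hε1
      omega
    intro x y hxy
    rcases x with i | i <;> rcases y with j | j
    · simp only [Sum.elim_inl] at hxy
      have h4 : a i = a j := by exact_mod_cast hxy
      rw [ha h4]
    · simp only [Sum.elim_inl, Sum.elim_inr] at hxy
      exact absurd hxy (hne i j)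
    · simp only [Sum.elim_inl, Sum.elim_inr] at hxy
      exact absurd hxy.symm (hne j i)
    · simp only [Sum.elim_inr, add_left_inj] at hxy
      have h4 : a i = a j := by exact_mod_cast hxy
      rw [ha h4]
  · have : η ≤ v₀ := min_le_left _ _
    linarith
  · linarith
  · intro σ hσ1 hσ2
    have hηv : η ≤ v₀ := min_le_left _ _
    have hηδ : η ≤ δ / 2 := min_le_right _ _
    have hσ : v₀ < σ := by linarith
    have hσ0 : 0 < σ := by linarith
    set GR : ℝ[X] := g.map (algebraMap ℚ ℝ) with hGR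
    set RR : ℝ[X] := r.map (algebraMap ℚ ℝ) with hRR
    have hGRm : GR.Monic := hgm.map _
    have hGRn : GR.natDegree = n := by rw [hGR, hgm.natDegree_map, hgn]
    have hGRd : GR.degree = n := by rw [degree_eq_natDegree hGRm.ne_zero, hGRn]
    have hRRd : RR.degree < n := lt_of_le_of_lt degree_map_le hrd
    set L : ℝ[X] := C (σ / 2) - C (1 / (2 * σ)) * RR with hL
    have hLd : L.degree < GR.degree := by
      rw [hGRd]
      refine lt_of_le_of_lt (degree_sub_le _ _) (max_lt (hCdeg _) ?_)
      refine lt_of_le_of_lt (degree_mul_le _ _) ?_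
      refine lt_of_le_of_lt (add_le_add_left degree_C_le _) ?_
      rw [zero_add]
      exact hRRd
    set Q : ℝ[X] := GR + L with hQd
    have hQm : Q.Monic := hGRm.add_of_left hLd
    have hQn : Q.natDegree = P.natDegree := by
      rw [hQd, natDegree_add_eq_left_of_degree_lt hLd, hGRn, hPn]
    have hQc : ∀ j, |Q.coeff j - P.coeff j| < δ := by
      intro j
      rcases lt_trichotomy j n with hj | hj | hj
      · obtain ⟨h1, h2⟩ := hm ⟨j, hj⟩
        have e1 : GR.coeff j = (((gf ⟨j, hj⟩).eval ε : ℚ) : ℝ) := by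
          rw [hGR, coeff_map]
          have := hcg ⟨j, hj⟩
          simp only at this
          rw [this]
          rfl
        have e2 : RR.coeff j = (((rf ⟨j, hj⟩).eval ε : ℚ) : ℝ) := by
          rw [hRR, coeff_map]
          have := hcr ⟨j, hj⟩
          simp only at this
          rw [this]
          rfl
        have e3 : Q.coeff j - P.coeff j = (GR.coeff j - A.coeff j) +
            (if j = 0 then σ / 2 - v₀ else 0) - RR.coeff j / (2 * σ) := by
          rw [hQd, hL, hP]
          simp only [coeff_add, coeff_sub, coeff_C, coeff_C_mul]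
          split_ifs <;> ring
        rw [e3, e1, e2]
        simp only at h1 h2
        have h3 : |(if j = 0 then σ / 2 - v₀ else 0 : ℝ)| ≤ δ / 4 := by
          split_ifs
          · rw [abs_le]; constructor <;> linarith
          · rw [abs_zero]; positivity
        have h4 : |(((rf ⟨j, hj⟩).eval ε : ℚ) : ℝ) / (2 * σ)| < δ / 4 := by
          rw [abs_div, abs_of_pos (by positivity : (0 : ℝ) < 2 * σ), div_lt_iff₀ (by positivity)]
          nlinarith
        calc |((((gf ⟨j, hj⟩).eval ε : ℚ) : ℝ) - A.coeff j) + (if j = 0 then σ / 2 - v₀ else 0) -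
              (((rf ⟨j, hj⟩).eval ε : ℚ) : ℝ) / (2 * σ)|
            ≤ |((((gf ⟨j, hj⟩).eval ε : ℚ) : ℝ) - A.coeff j) + (if j = 0 then σ / 2 - v₀ else 0)| +
              |(((rf ⟨j, hj⟩).eval ε : ℚ) : ℝ) / (2 * σ)| := abs_sub _ _
          _ ≤ |(((gf ⟨j, hj⟩).eval ε : ℚ) : ℝ) - A.coeff j| + |(if j = 0 then σ / 2 - v₀ else 0 : ℝ)| +
              |(((rf ⟨j, hj⟩).eval ε : ℚ) : ℝ) / (2 * σ)| := by
            gcongr
            exact abs_add_le _ _
          _ < δ := by linarith
      · have e1 : Q.coeff j = 1 := by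
          have := hQm.coeff_natDegree
          rwa [hQn, hPn, ← hj] at this
        have e2 : P.coeff j = 1 := by
          have := hPm.coeff_natDegree
          rwa [hPn, ← hj] at this
        rw [e1, e2, sub_self, abs_zero]
        exact hδ
      · rw [coeff_eq_zero_of_natDegree_lt (by rw [hQn, hPn]; exact hj),
          coeff_eq_zero_of_natDegree_lt (by rw [hPn]; exact hj), sub_self, abs_zero]
        exact hδ
    have h5 := hQ Q hQm hQn hQc
    rw [hPr] at h5
    rw [← h5]
    congr 1
    ext x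
    simp only [Set.mem_ofPred_eq]
    have e1 : aeval x g = GR.eval x := (eval_map_algebraMap g x).symm
    have e2 : aeval x r = RR.eval x := (eval_map_algebraMap r x).symm
    rw [e1, e2, hQd, hL, eval_add, eval_sub, eval_mul, eval_C, eval_C]
    have e3 : 2 * σ * GR.eval x + σ ^ 2 - RR.eval x =
        2 * σ * (GR.eval x + (σ / 2 - 1 / (2 * σ) * RR.eval x)) := by
      field_simp
      ring
    rw [e3, mul_eq_zero]
    constructor
    · intro h
      exact h.resolve_left (by positivity)
    · intro h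
      exact Or.inr h

end Pool.Agent.J4H72.TR
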